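import Pool.Agent.Y34.EL.Stm

/-!
# Dual pairs of rays joined by a line without half-planes (task S_DUAL)
-/

set_option autoImplicit false

universe u v

open Metric Set Filter Topology
open Pool.Agent.TH60.FP Pool.Agent.Y34.HB Pool.Agent.Y34.EL

namespace Pool.Agent.Y988.EL

theorem key {X : Type u} [MetricSpace X] [ProperSpace X] (hX : CN X) (hS : S_STEW.{u})
    (hC : S_CMP.{u}) (o o' p p' y z a w : X) (K T t : ℝ) (h1 : dist o o' ≤ K)
    (h2 : dist p p' ≤ K) (h3 : t ≤ dist o p) (h4 : On o p t y) (h5 : dist y z ≤ K + 1)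
    (h6 : On o' z T a) (h7 : dist o' z = t) (h8 : On o' p' T w) (hT : 0 < T)
    (ht : 4 * (T * (2 * K + 1)) + T + 4 * K + 2 ≤ t) : dist w a ≤ 1 / 2 := by
  obtain ⟨hex, huniq, -⟩ := hS X hX
  obtain ⟨hc1, hc2⟩ := hC X hX
  have hK : 0 ≤ K := dist_nonneg.trans h1
  have hTK : 0 ≤ T * (2 * K + 1) := by positivity
  have htpos : 0 < t := by linarith
  have hd : 0 < dist o p := by linarith
  obtain ⟨l, hl⟩ : ∃ l, l = t / dist o p := ⟨_, rfl⟩
  have hl0 : 0 ≤ l := by rw [hl]; positivity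
  have hl1 : l ≤ 1 := by rw [hl]; exact (div_le_one hd).mpr h3
  have hlt : l * dist o p = t := by rw [hl]; exact div_mul_cancel₀ _ hd.ne'
  obtain ⟨y', hy'⟩ := hex o' p' (l * dist o' p') (mul_nonneg hl0 dist_nonneg)
    (by nlinarith [dist_nonneg (x := o') (y := p')])
  have h9 : dist y y' ≤ K := by
    have := hc2 o p o' p' l y y' (by rw [hlt]; exact h4) hy' hl0 hl1
    nlinarith
  have h10 : dist y' z ≤ 2 * K + 1 := by
    have := dist_triangle y' y z
    rw [dist_comm y' y] at this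
    linarith
  have h11 : t - (2 * K + 1) ≤ dist o' y' := by
    have := dist_triangle o' y' z
    linarith
  obtain ⟨w', hw'⟩ := hex o' y' T hT.le (by linarith)
  have h12 : On o' p' T w' := by
    refine ⟨hw'.1, le_antisymm ?_ ?_⟩
    · have e1 := dist_triangle w' y' p'
      have e2 := hw'.2
      have e3 := hy'.1
      have e4 := hy'.2
      linarith
    · have e1 := dist_triangle o' w' p'
      have e2 := hw'.1
      linarith
  rw [huniq _ _ _ _ _ h8 h12]
  have h13 := hc1 o' y' z T w' a hw' h6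
  rw [h7] at h13
  have h14 : dist y' z ^ 2 ≤ (2 * K + 1) ^ 2 := pow_le_pow_left₀ dist_nonneg h10 2
  have h15 : dist w' a ^ 2 * (dist o' y' * t) ≤ T ^ 2 * (2 * K + 1) ^ 2 := by
    refine h13.trans (mul_le_mul_of_nonneg_left ?_ (sq_nonneg T))
    nlinarith [sq_nonneg (dist o' y' - t)]
  have h16 : t / 2 ≤ dist o' y' := by linarith
  have h17 : dist w' a ^ 2 * (t / 2 * t) ≤ T ^ 2 * (2 * K + 1) ^ 2 := by
    refine le_trans (mul_le_mul_of_nonneg_left ?_ (sq_nonneg _)) h15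
    exact mul_le_mul_of_nonneg_right h16 htpos.le
  have h18 : (4 * (T * (2 * K + 1))) ^ 2 ≤ t ^ 2 :=
    pow_le_pow_left₀ (by positivity) (by linarith) 2
  have h19 : dist w' a ^ 2 ≤ 1 / 8 := by
    have ht2 : 0 < t ^ 2 := by positivity
    by_contra hcon
    push Not at hcon
    nlinarith
  by_contra hcon
  push Not at hcon
  nlinarith

/-- DUAL: a dual pair of rays joined by a line without half-planes -/
theorem t_DUAL (hS : S_STEW.{u}) (hC : S_CMP.{u}) (hCL : S_CLOSE.{u, v}) : S_DUAL.{u, v} := by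
  intro X _ G _ _ hG o c η hc hη hD σ K hσ hclo hHP
  have := hG.proper
  have := hG.isom
  obtain ⟨T, L, hT, hTL, hcl⟩ := hCL X G hG σ hσ hHP
  have h0 : dist o (σ 0) ≤ K := by
    have := (hclo 0 le_rfl).1
    rw [hc.1, dist_comm] at this
    exact this
  have hK : 0 ≤ K := dist_nonneg.trans h0
  have hTK : 0 ≤ T * (2 * K + 1) := by positivity
  obtain ⟨t, ht⟩ : ∃ t, t = 4 * (T * (2 * K + 1)) + T + 4 * K + 2 + L := ⟨_, rfl⟩
  have htpos : 0 < t := by linarith
  obtain ⟨g, hg1, hg2, hg3⟩ := hD t htpos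
  obtain ⟨hex, -, -⟩ := hS X hG.cn
  have hsig : ∀ s r : ℝ, dist (σ s) (σ r) = |s - r| := fun s r => by
    rw [hσ.dist_eq, Real.dist_eq]
  have hsm : ∀ (h : G) (x x' : X), dist (h • x) (h • x') = dist x x' := fun h x x' =>
    dist_smul h x x'
  have hg4 : t ≤ dist o (g⁻¹ • o) := by
    have : dist o (g⁻¹ • o) = dist o (g • o) := by
      rw [← hsm g o (g⁻¹ • o), smul_inv_smul, dist_comm]
    rw [this]
    exact hg1
  refine ⟨g, hcl g ?_ ?_ ?_⟩
  · have e1 := dist_triangle4 o (σ 0) (g • σ 0) (g • o)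
    have e2 := hsm g (σ 0) o
    rw [dist_comm (σ 0) o] at e2
    linarith
  · intro w hw
    obtain ⟨y, hy⟩ := hex o (g • o) t htpos.le hg1
    have e1 := hg2 y hy
    have e2 := (hclo t htpos.le).1
    have e3 := dist_triangle y (c t) (σ t)
    rw [dist_comm (c t) (σ t)] at e3
    refine key hG.cn hS hC o (σ 0) (g • o) (g • σ 0) y (σ t) (σ T) w K T t h0
      ((hsm g _ _).trans_le h0) hg1 hy (by linarith) ⟨?_, ?_⟩ ?_ hw hT (by linarith)
    · rw [hsig, zero_sub, abs_neg, abs_of_pos hT]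
    · rw [hsig, hsig, zero_sub, abs_neg, abs_of_pos htpos, abs_sub_comm, abs_of_nonneg]
      linarith
    · rw [hsig, zero_sub, abs_neg, abs_of_pos htpos]
  · intro w hw
    obtain ⟨y, hy⟩ := hex o (g⁻¹ • o) t htpos.le hg4
    have e1 := hg3 y hy
    have e2 := (hclo t htpos.le).2
    have e3 := dist_triangle y (η t) (σ (-t))
    rw [dist_comm (η t) (σ (-t))] at e3
    refine key hG.cn hS hC o (σ 0) (g⁻¹ • o) (g⁻¹ • σ 0) y (σ (-t)) (σ (-T)) w K T t h0
      ((hsm g⁻¹ _ _).trans_le h0) hg4 hy (by linarith) ⟨?_, ?_⟩ ?_ hw hT (by linarith)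
    · rw [hsig, sub_neg_eq_add, zero_add, abs_of_pos hT]
    · rw [hsig, hsig, sub_neg_eq_add, sub_neg_eq_add, zero_add, abs_of_pos htpos,
        abs_of_nonneg] <;> linarith
    · rw [hsig, sub_neg_eq_add, zero_add, abs_of_pos htpos]

end Pool.Agent.Y988.EL
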